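import Mathlib

set_option autoImplicit false

namespace Pool.Agent.H.MP_913ab3_an

open Filter Topology

/-- The series `∑_{k ≥ 1} (-1)^(k+1) sinh y / sinh (k y)` with `y = arcosh r` (for `r > 1`). -/
noncomputable def ser (r : ℝ) : ℝ :=
  ∑' k : ℕ, (-1 : ℝ) ^ ((k + 1) + 1) * Real.sinh (Real.arcosh r)
    / Real.sinh (((k + 1 : ℕ) : ℝ) * Real.arcosh r)

/-- `S r` is the series for `r > 1`, and `S 1` is the right limit of the series at `1`. -/
noncomputable def S (r : ℝ) : ℝ := if r = 1 then limUnder (𝓝[>] (1 : ℝ)) ser else ser r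

end Pool.Agent.H.MP_913ab3_an
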