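import Pool.Agent.H.MP_913ab3_an.Defs

set_option autoImplicit false

namespace Pool.Agent.H.MP_913ab3_an

open Filter Topology Real Finset

/-- telescoping function -/
noncomputable def g (q v : ℝ) : ℝ := v * (1 + q ^ 2) / (1 + q ^ 2 + 2 * q * v)

/-- derivative of a term -/
noncomputable def T (q v m : ℝ) : ℝ :=
  v * (1 + q ^ 2) / (1 + v * q) - m * (v * (1 - q ^ 2) / (1 + v * q) ^ 2)

lemma step (q v m : ℝ) (hq : 0 < q) (hq1 : q < 1) (hv : 0 < v) (hm : 0 ≤ m) :
    (m + 1) * g q (v * q ^ 2) - (m - 1) * g q v ≤ T q v m := by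
  have h4 : 0 ≤ (1 + q ^ 2) ^ 2 - 4 * q ^ 2 := by nlinarith [sq_nonneg (1 - q ^ 2)]
  have h5 : 0 ≤ 1 - q ^ 2 := by nlinarith
  have i1 : v * (1 - q ^ 2) / (1 + v * q) ^ 2 ≤ g q v - g q (v * q ^ 2) := by
    unfold g
    rw [div_sub_div _ _ (by positivity) (by positivity), div_le_div_iff₀ (by positivity) (by positivity)]
    have : 0 ≤ v * (1 - q ^ 2) * (v ^ 2 * q ^ 2) * ((1 + q ^ 2) ^ 2 - 4 * q ^ 2) := by positivity
    nlinarith [this]
  have i2 : g q v + g q (v * q ^ 2) ≤ v * (1 + q ^ 2) / (1 + v * q) := by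
    unfold g
    rw [div_add_div _ _ (by positivity) (by positivity), div_le_div_iff₀ (by positivity) (by positivity)]
    have : 0 ≤ v * (1 + q ^ 2) * (v * q) * ((1 + q ^ 2) ^ 2 - 4 * q ^ 2) := by positivity
    nlinarith [this]
  unfold T
  nlinarith [mul_le_mul_of_nonneg_left i1 hm]

lemma base (q : ℝ) (hq : 0 < q) (hq1 : q < 1) :
    q * (1 - q) ^ 2 / 4 + 2 * g q (q ^ 2) ≤ T q 1 1 := by
  have e1 : T q 1 1 = q := by
    unfold T; field_simp; ring
  have hd : 0 < 1 + q ^ 2 + 2 * q * q ^ 2 := by positivity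
  have e2 : q - 2 * g q (q ^ 2) = q * (1 - q) ^ 2 / (1 + q ^ 2 + 2 * q * q ^ 2) := by
    unfold g; field_simp; ring
  have h1 : q ^ 2 ≤ 1 := by nlinarith
  have h2 : q * q ^ 2 ≤ 1 := by nlinarith
  have h3 : q * (1 - q) ^ 2 / 4 ≤ q * (1 - q) ^ 2 / (1 + q ^ 2 + 2 * q * q ^ 2) :=
    div_le_div_of_nonneg_left (by positivity) hd (by linarith)
  have h4 : 0 ≤ q * (1 - q) ^ 2 / (1 + q ^ 2 + 2 * q * q ^ 2) := by positivity
  rw [e1]
  nlinarith

lemma sum_T (q : ℝ) (hq : 0 < q) (hq1 : q < 1) (N : ℕ) :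
    q * (1 - q) ^ 2 / 4 + 2 * ((N : ℝ) + 1) * g q (q ^ (2 * (N + 1)))
      ≤ ∑ j ∈ range (N + 1), T q (q ^ (2 * j)) (2 * j + 1) := by
  induction N with
  | zero => simpa using base q hq hq1
  | succ N ih =>
    rw [Finset.sum_range_succ]
    have h := step q (q ^ (2 * (N + 1))) (2 * ((N + 1 : ℕ) : ℝ) + 1) hq hq1 (by positivity)
      (by positivity)
    have e : q ^ (2 * (N + 1)) * q ^ 2 = q ^ (2 * (N + 1 + 1)) := by ring
    rw [e] at h
    push_cast at h ⊢
    linarith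

/-- a term of the rearranged series -/
noncomputable def f (j : ℕ) (y : ℝ) : ℝ :=
  (1 - exp (-y) ^ 2) * exp (-y) ^ (2 * j) / (1 + exp (-y) ^ (2 * j) * exp (-y))

lemma f_deriv (j : ℕ) (y : ℝ) :
    HasDerivAt (f j) (T (exp (-y)) (exp (-y) ^ (2 * j)) (2 * j + 1)) y := by
  have hq : HasDerivAt (fun y : ℝ => exp (-y)) (-exp (-y)) y := by
    simpa using (hasDerivAt_neg y).exp
  have hv : HasDerivAt (fun y : ℝ => exp (-y) ^ (2 * j)) (-(2 * j) * exp (-y) ^ (2 * j)) y := by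
    have e : ∀ y : ℝ, exp (-y) ^ (2 * j) = exp (-(2 * j) * y) := by
      intro y; rw [← Real.exp_nat_mul]; congr 1; push_cast; ring
    simp only [e]
    have := ((hasDerivAt_id y).const_mul (-(2 * (j : ℝ)))).exp
    simp only [id, mul_one] at this
    exact this.congr_deriv (by ring)
  have h2 : HasDerivAt (fun y : ℝ => exp (-y) ^ 2) (-2 * exp (-y) ^ 2) y := by
    exact (hq.pow 2).congr_deriv (by push_cast; ring)
  have hpos : 0 < 1 + exp (-y) ^ (2 * j) * exp (-y) := by positivity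
  have h := ((h2.const_sub 1).mul hv).div ((hv.mul hq).const_add 1) hpos.ne'
  refine HasDerivAt.congr_deriv (f := f j) h ?_
  simp only [Pi.mul_apply]
  unfold T
  generalize exp (-y) ^ (2 * j) = v at hpos ⊢
  generalize exp (-y) = q at hpos ⊢
  field_simp
  ring

/-- strictly increasing minorant -/
noncomputable def W (y : ℝ) : ℝ := (1 - exp (-y)) ^ 3 / 12

lemma W_deriv (y : ℝ) : HasDerivAt W (exp (-y) * (1 - exp (-y)) ^ 2 / 4) y := by
  have hq : HasDerivAt (fun y : ℝ => exp (-y)) (-exp (-y)) y := by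
    simpa using (hasDerivAt_neg y).exp
  have h := ((hq.const_sub 1).pow 3).div_const 12
  exact HasDerivAt.congr_deriv (f := W) h (by push_cast; ring)

lemma g_nonneg (q v : ℝ) (hq : 0 < q) (hv : 0 < v) : 0 ≤ g q v := by
  unfold g; positivity

lemma part_mono (N : ℕ) :
    MonotoneOn (fun y => ∑ j ∈ range (N + 1), f j y - W y) (Set.Ioi 0) := by
  have hd : ∀ y, HasDerivAt (fun y => ∑ j ∈ range (N + 1), f j y - W y)
      (∑ j ∈ range (N + 1), T (exp (-y)) (exp (-y) ^ (2 * j)) (2 * j + 1)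
        - exp (-y) * (1 - exp (-y)) ^ 2 / 4) y := fun y =>
    (HasDerivAt.fun_sum fun j _ => f_deriv j y).sub (W_deriv y)
  apply monotoneOn_of_deriv_nonneg (convex_Ioi 0)
  · exact fun y _ => (hd y).continuousAt.continuousWithinAt
  · exact fun y _ => (hd y).differentiableAt.differentiableWithinAt
  · intro y hy
    rw [interior_Ioi] at hy
    rw [(hd y).deriv]
    have hq : 0 < exp (-y) := exp_pos _
    have hq1 : exp (-y) < 1 := by rw [Real.exp_lt_one_iff]; exact neg_lt_zero.2 hy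
    have h := sum_T _ hq hq1 N
    have h2 := g_nonneg (exp (-y)) (exp (-y) ^ (2 * (N + 1))) hq (by positivity)
    have h3 : 0 ≤ 2 * ((N : ℝ) + 1) * g (exp (-y)) (exp (-y) ^ (2 * (N + 1))) := by positivity
    linarith

/-- the series in the variable `y` -/
noncomputable def sy (y : ℝ) : ℝ :=
  ∑' k : ℕ, (-1 : ℝ) ^ ((k + 1) + 1) * sinh y / sinh (((k + 1 : ℕ) : ℝ) * y)

lemma hasSum_f (y : ℝ) (hy : 0 < y) : HasSum (fun j => f j y) (sy y) := by
  have hq : 0 < exp (-y) := exp_pos _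
  have hq1 : exp (-y) < 1 := by rw [Real.exp_lt_one_iff]; exact neg_lt_zero.2 hy
  have hs : ∀ k : ℕ, sinh ((k : ℝ) * y) = (1 - exp (-y) ^ (2 * k)) / (2 * exp (-y) ^ k) := by
    intro k
    rw [Real.sinh_eq, ← mul_neg, Real.exp_nat_mul (-y)]
    have : exp ((k : ℝ) * y) = (exp (-y) ^ k)⁻¹ := by
      rw [← Real.exp_nat_mul, ← Real.exp_neg]; congr 1; ring
    rw [this]
    field_simp
    ring
  have hs1 : sinh y = (1 - exp (-y) ^ 2) / (2 * exp (-y)) := by simpa using hs 1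
  unfold sy f
  simp only [hs, hs1]
  generalize exp (-y) = q at hq hq1 ⊢
  let a : ℕ × ℕ → ℝ := fun p => (1 - q ^ 2) * (-1) ^ p.1 * q ^ (p.1 + 2 * (p.1 + 1) * p.2)
  have hg : Summable (fun k : ℕ => ‖q ^ k‖) := by
    simpa [abs_of_pos hq] using summable_geometric_of_lt_one hq.le hq1
  have ha : Summable a := by
    refine Summable.of_norm_bounded (summable_mul_of_summable_norm hg hg) ?_
    rintro ⟨k, j⟩
    have h1 : |1 - q ^ 2| ≤ 1 := by rw [abs_le]; constructor <;> nlinarith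
    have h2 : q ^ (k + 2 * (k + 1) * j) ≤ q ^ (k + j) :=
      pow_le_pow_of_le_one hq.le hq1.le (by nlinarith)
    simp only [a, norm_mul, norm_pow, norm_neg, norm_one, one_pow, mul_one, Real.norm_eq_abs,
      abs_of_pos hq]
    rw [← pow_add]
    have h3 : 0 ≤ q ^ (k + 2 * (k + 1) * j) := by positivity
    nlinarith [abs_nonneg (1 - q ^ 2)]
  have h1 : HasSum (fun k : ℕ => (-1 : ℝ) ^ ((k + 1) + 1) * ((1 - q ^ 2) / (2 * q))
      / ((1 - q ^ (2 * (k + 1))) / (2 * q ^ (k + 1)))) (∑' p, a p) := by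
    refine ha.hasSum.prod_fiberwise fun k => ?_
    have hr : q ^ (2 * (k + 1)) < 1 := pow_lt_one₀ hq.le hq1 (by omega)
    have := (hasSum_geometric_of_lt_one (by positivity) hr).mul_left
      ((1 - q ^ 2) * (-1) ^ k * q ^ k)
    have e1 : (fun c => a (k, c))
        = fun i => (1 - q ^ 2) * (-1) ^ k * q ^ k * (q ^ (2 * (k + 1))) ^ i := by
      ext j; simp only [a]; rw [← pow_mul, pow_add]; ring
    have e2 : (-1 : ℝ) ^ ((k + 1) + 1) * ((1 - q ^ 2) / (2 * q))
        / ((1 - q ^ (2 * (k + 1))) / (2 * q ^ (k + 1)))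
        = (1 - q ^ 2) * (-1) ^ k * q ^ k * (1 - q ^ (2 * (k + 1)))⁻¹ := by
      have : 1 - q ^ (2 * (k + 1)) ≠ 0 := by linarith
      field_simp
      ring
    rw [e1, e2]
    exact this
  have h2 : HasSum (fun j : ℕ => (1 - q ^ 2) * q ^ (2 * j) / (1 + q ^ (2 * j) * q))
      (∑' p, a p) := by
    have hs' : HasSum (a ∘ Equiv.prodComm ℕ ℕ) (∑' p, a p) :=
      (Equiv.prodComm ℕ ℕ).hasSum_iff.2 ha.hasSum
    refine hs'.prod_fiberwise fun j => ?_
    have hr : |-(q ^ (2 * j) * q)| < 1 := by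
      rw [abs_neg, abs_of_pos (by positivity), ← pow_succ]
      exact pow_lt_one₀ hq.le hq1 (by omega)
    have := (hasSum_geometric_of_abs_lt_one hr).mul_left ((1 - q ^ 2) * q ^ (2 * j))
    have e1 : (fun c => (a ∘ Equiv.prodComm ℕ ℕ) (j, c))
        = fun i => (1 - q ^ 2) * q ^ (2 * j) * (-(q ^ (2 * j) * q)) ^ i := by
      ext k
      simp only [a, Function.comp, Equiv.prodComm_apply, Prod.swap_prod_mk]
      rw [neg_pow (q ^ (2 * j) * q), ← pow_succ, ← pow_mul]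
      ring
    rw [e1, div_eq_mul_inv, ← sub_neg_eq_add]
    exact this
  rw [h1.tsum_eq]
  exact h2

lemma sy_strict (y z : ℝ) (hy : 0 < y) (hyz : y < z) : sy y < sy z := by
  have hz : 0 < z := hy.trans hyz
  have t1 := (hasSum_f y hy).tendsto_sum_nat.comp (tendsto_add_atTop_nat 1)
  have t2 := (hasSum_f z hz).tendsto_sum_nat.comp (tendsto_add_atTop_nat 1)
  have h : sy y - W y ≤ sy z - W z :=
    le_of_tendsto_of_tendsto' (t1.sub_const (W y)) (t2.sub_const (W z)) fun N =>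
      part_mono N hy hz hyz.le
  have hW : W y < W z := by
    unfold W
    have h1 : exp (-z) < exp (-y) := exp_lt_exp.2 (by linarith)
    have h2 : exp (-y) < 1 := by rw [Real.exp_lt_one_iff]; linarith
    have := pow_lt_pow_left₀ (show 1 - exp (-y) < 1 - exp (-z) by linarith) (by linarith)
      (show 3 ≠ 0 by norm_num)
    linarith
  linarith

lemma sy_nonneg (y : ℝ) (hy : 0 < y) : 0 ≤ sy y := by
  refine (hasSum_f y hy).nonneg fun j => ?_
  have hq : 0 < exp (-y) := exp_pos _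
  have hq1 : exp (-y) < 1 := by rw [Real.exp_lt_one_iff]; exact neg_lt_zero.2 hy
  unfold f
  have : 0 ≤ 1 - exp (-y) ^ 2 := by nlinarith
  positivity

lemma ser_strict : StrictMonoOn ser (Set.Ioi 1) := by
  intro r hr s hs hrs
  have hr' : (1 : ℝ) < r := hr
  have hs' : (1 : ℝ) < s := hs
  exact sy_strict _ _ (arcosh_pos hr') ((arcosh_lt_arcosh (by linarith) (by linarith)).2 hrs)

lemma ser_bdd : BddBelow (ser '' Set.Ioo 1 2) := by
  refine ⟨0, ?_⟩
  rintro _ ⟨r, hr, rfl⟩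
  exact sy_nonneg _ (arcosh_pos hr.1)

lemma ser_tendsto : Tendsto ser (𝓝[>] 1) (𝓝 (sInf (ser '' Set.Ioo 1 2))) :=
  MonotoneOn.tendsto_nhdsWithin_Ioo_right ⟨3 / 2, by norm_num, by norm_num⟩
    (ser_strict.monotoneOn.mono Set.Ioo_subset_Ioi_self) ser_bdd

theorem main : Tendsto ser (𝓝[>] 1) (𝓝 (S 1)) ∧ StrictMonoOn S (Set.Ici 1) := by
  have e1 : S 1 = sInf (ser '' Set.Ioo 1 2) := by
    unfold S; rw [if_pos rfl]; exact ser_tendsto.limUnder_eq
  refine ⟨by rw [e1]; exact ser_tendsto, ?_⟩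
  intro r hr s hs hrs
  have hr' : (1 : ℝ) ≤ r := hr
  have hs1 : 1 < s := lt_of_le_of_lt hr' hrs
  have es : S s = ser s := by unfold S; rw [if_neg hs1.ne']
  rcases hr'.eq_or_lt with h | h
  · rw [← h, e1, es]
    obtain ⟨t, ht1, ht2⟩ := exists_between (lt_min hs1 (show (1 : ℝ) < 2 by norm_num))
    have a1 : sInf (ser '' Set.Ioo 1 2) ≤ ser t :=
      csInf_le ser_bdd ⟨t, ⟨ht1, ht2.trans_le (min_le_right _ _)⟩, rfl⟩
    exact a1.trans_lt (ser_strict ht1 hs1 (ht2.trans_le (min_le_left _ _)))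
  · have er : S r = ser r := by unfold S; rw [if_neg h.ne']
    rw [er, es]
    exact ser_strict h hs1 hrs

end Pool.Agent.H.MP_913ab3_an
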